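import Mathlib
set_option autoImplicit false

/-! # A Poincare inequality for balanced functions on the cube -/

namespace Pool.Agent.V11160.JU

open Finset

/-- `f` is orthogonal to all functions of fewer than `t` coordinates. -/
def Bal {n : ℕ} (t : ℕ) (f : (Fin n → Bool) → ℝ) : Prop :=
  ∀ T : Finset (Fin n), T.card < t → ∀ y : Fin n → Bool,
    ∑ x : Fin n → Bool, (if ∀ i ∈ T, x i = y i then f x else 0) = 0

/-- Flip the coordinate `i`. -/
def flip {n : ℕ} (x : Fin n → Bool) (i : Fin n) : Fin n → Bool := Function.update x i (!x i)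

theorem sum_cons {n : ℕ} (F : (Fin (n + 1) → Bool) → ℝ) :
    ∑ x, F x = ∑ x' : Fin n → Bool,
      (F (Fin.cons (α := fun _ => Bool) false x') + F (Fin.cons (α := fun _ => Bool) true x')) := by
  rw [← (Fin.consEquiv fun _ => Bool).sum_comp, Fintype.sum_prod_type, Fintype.sum_bool,
    ← Finset.sum_add_distrib]
  refine Finset.sum_congr rfl fun x' _ => ?_
  rw [add_comm]
  rfl

theorem flip_cons_zero {n : ℕ} (b : Bool) (x : Fin n → Bool) :
    flip (Fin.cons (α := fun _ => Bool) b x) 0 = Fin.cons (α := fun _ => Bool) (!b) x := by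
  unfold flip
  rw [Fin.update_cons_zero]
  rfl

theorem flip_cons_succ {n : ℕ} (b : Bool) (x : Fin n → Bool) (i : Fin n) :
    flip (Fin.cons (α := fun _ => Bool) b x) i.succ
      = Fin.cons (α := fun _ => Bool) b (flip x i) := by
  unfold flip
  rw [Fin.cons_update]
  rfl

theorem poincare : ∀ (n t : ℕ) (f : (Fin n → Bool) → ℝ), Bal t f →
    4 * t * ∑ x, f x ^ 2 ≤ ∑ x, ∑ i, (f x - f (flip x i)) ^ 2 := by
  intro n
  induction n with
  | zero =>
    intro t f hf
    rcases Nat.eq_zero_or_pos t with ht | ht
    · subst ht
      simp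
    · have h0 := hf ∅ (by simpa using ht) (fun i => i.elim0)
      simp only [Finset.notMem_empty, false_implies, implies_true, if_true] at h0
      have h1 : ∀ x, f x = 0 := by
        intro x
        rw [Fintype.sum_subsingleton _ x] at h0
        exact h0
      simp [h1]
  | succ n ih =>
    intro t f hf
    set g : (Fin n → Bool) → ℝ := fun x =>
      (f (Fin.cons (α := fun _ => Bool) false x) + f (Fin.cons (α := fun _ => Bool) true x)) / 2
      with hg
    set h : (Fin n → Bool) → ℝ := fun x =>
      (f (Fin.cons (α := fun _ => Bool) false x) - f (Fin.cons (α := fun _ => Bool) true x)) / 2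
      with hh
    have hf0 : ∀ x, f (Fin.cons (α := fun _ => Bool) false x) = g x + h x := by
      intro x
      simp only [hg, hh]
      ring
    have hf1 : ∀ x, f (Fin.cons (α := fun _ => Bool) true x) = g x - h x := by
      intro x
      simp only [hg, hh]
      ring
    have bg : Bal t g := by
      intro T hT y
      have h1 := hf (T.map (Fin.succEmb n)) (by simpa using hT)
        (Fin.cons (α := fun _ => Bool) false y)
      rw [sum_cons] at h1
      simp only [Finset.mem_map, forall_exists_index, and_imp, forall_apply_eq_imp_iff₂,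
        Fin.coe_succEmb, Fin.cons_succ] at h1
      have h2 : ∑ x : Fin n → Bool, (if ∀ i ∈ T, x i = y i then g x else 0)
          = (1 / 2) * ∑ x : Fin n → Bool,
            ((if ∀ i ∈ T, x i = y i then f (Fin.cons (α := fun _ => Bool) false x) else 0)
            + (if ∀ i ∈ T, x i = y i then f (Fin.cons (α := fun _ => Bool) true x) else 0)) := by
        rw [Finset.mul_sum]
        refine Finset.sum_congr rfl fun x _ => ?_
        split_ifs
        · simp only [hg]
          ring
        · ring
      rw [h2, h1, mul_zero]
    have bh : Bal (t - 1) h := by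
      intro T hT y
      have key : ∀ b : Bool, ∑ x : Fin n → Bool,
          (if ∀ i ∈ T, x i = y i then f (Fin.cons (α := fun _ => Bool) b x) else 0) = 0 := by
        intro b
        have h1 := hf (insert 0 (T.map (Fin.succEmb n)))
          (by
            refine (Finset.card_insert_le _ _).trans_lt ?_
            rw [Finset.card_map]
            omega)
          (Fin.cons (α := fun _ => Bool) b y)
        rw [sum_cons] at h1
        simp only [Finset.mem_insert, Finset.mem_map, forall_eq_or_imp, forall_exists_index,
          and_imp, forall_apply_eq_imp_iff₂, Fin.coe_succEmb, Fin.cons_succ, Fin.cons_zero] at h1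
        refine Eq.trans (Finset.sum_congr rfl fun x _ => ?_) h1
        cases b <;> simp
      have h2 : ∑ x : Fin n → Bool, (if ∀ i ∈ T, x i = y i then h x else 0)
          = (1 / 2) * (∑ x : Fin n → Bool,
            (if ∀ i ∈ T, x i = y i then f (Fin.cons (α := fun _ => Bool) false x) else 0)
            - ∑ x : Fin n → Bool,
              (if ∀ i ∈ T, x i = y i then f (Fin.cons (α := fun _ => Bool) true x) else 0)) := by
        rw [← Finset.sum_sub_distrib, Finset.mul_sum]
        refine Finset.sum_congr rfl fun x _ => ?_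
        split_ifs
        · simp only [hh]
          ring
        · ring
      rw [h2, key, key]
      norm_num
    have e1 : ∑ x, f x ^ 2 = 2 * ∑ x, g x ^ 2 + 2 * ∑ x, h x ^ 2 := by
      rw [sum_cons, Finset.mul_sum, Finset.mul_sum, ← Finset.sum_add_distrib]
      refine Finset.sum_congr rfl fun x _ => ?_
      rw [hf0, hf1]
      ring
    have e2 : ∑ x, ∑ i, (f x - f (flip x i)) ^ 2 = 8 * ∑ x, h x ^ 2
        + 2 * ∑ x, ∑ i, (g x - g (flip x i)) ^ 2 + 2 * ∑ x, ∑ i, (h x - h (flip x i)) ^ 2 := by
      rw [sum_cons, Finset.mul_sum, Finset.mul_sum, Finset.mul_sum, ← Finset.sum_add_distrib,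
        ← Finset.sum_add_distrib]
      refine Finset.sum_congr rfl fun x _ => ?_
      simp only [Fin.sum_univ_succ, flip_cons_zero, flip_cons_succ, Bool.not_false, Bool.not_true,
        hf0, hf1]
      rw [Finset.mul_sum, Finset.mul_sum]
      have : ∑ i, (g x + h x - (g (flip x i) + h (flip x i))) ^ 2
          + ∑ i, (g x - h x - (g (flip x i) - h (flip x i))) ^ 2
          = ∑ i, 2 * (g x - g (flip x i)) ^ 2 + ∑ i, 2 * (h x - h (flip x i)) ^ 2 := by
        rw [← Finset.sum_add_distrib, ← Finset.sum_add_distrib]
        exact Finset.sum_congr rfl fun i _ => by ring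
      linear_combination this
    have i1 := ih t g bg
    have i2 := ih (t - 1) h bh
    have hn : 0 ≤ ∑ x, h x ^ 2 := Finset.sum_nonneg fun x _ => sq_nonneg _
    have ht : (t : ℝ) - 1 ≤ ((t - 1 : ℕ) : ℝ) := by
      rcases Nat.eq_zero_or_pos t with h0 | h0
      · subst h0
        norm_num
      · rw [Nat.cast_sub h0]
        norm_num
    rw [e1, e2]
    have i3 : 4 * ((t : ℝ) - 1) * ∑ x, h x ^ 2 ≤ ∑ x, ∑ i, (h x - h (flip x i)) ^ 2 := by
      refine le_trans ?_ i2
      gcongr
    nlinarith [i1, i3]

end Pool.Agent.V11160.JU
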