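import Mathlib
import Pool.Agent.V11160.CodeOps
import Pool.Agent.V11160.JU.A
set_option autoImplicit false

/-! # Balanced functions are not closed under operations that are not affine -/

namespace Pool.Agent.V11160.JU

open Finset

variable {n : ℕ}

theorem flip_flip (x : Fin n → Bool) (i : Fin n) : flip (flip x i) i = x := by
  unfold flip
  simp

theorem flip_self (x : Fin n → Bool) (i : Fin n) : flip x i i = !x i := by
  unfold flip
  simp

theorem flip_ne (x : Fin n → Bool) {i j : Fin n} (h : j ≠ i) : flip x i j = x j := by
  unfold flip
  simp [h]

theorem sum_flip (F : (Fin n → Bool) → ℝ) (i : Fin n) : ∑ x, F (flip x i) = ∑ x, F x :=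
  Equiv.sum_comp (Function.Involutive.toPerm (fun x : Fin n → Bool => flip x i)
    (fun x => flip_flip x i)) F

theorem no_bal (C : Finset (Fin n → Bool)) (hC : CO.MajClosed C)
    (hf : Bal 3 (fun x => if x ∈ C then (1 : ℝ) else -1)) : False := by
  classical
  obtain ⟨c, hc⟩ := hC
  set f : (Fin n → Bool) → ℝ := fun x => if x ∈ C then (1 : ℝ) else -1 with hfd
  set P : (Fin n → Bool) → Fin n → ℝ :=
    fun x i => if x i = c i ∧ x ∉ C ∧ flip x i ∈ C then 1 else 0 with hP
  set e : (Fin n → Bool) → Fin n → ℝ := fun x i => if x i = c i then 1 else -1 with he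
  have h1 : ∀ x i, (f x - f (flip x i)) ^ 2
      = 8 * P x i + 8 * P (flip x i) i - 2 * (e x i * f (flip x i) - e x i * f x) := by
    intro x i
    simp only [hfd, hP, he, flip_flip, flip_self]
    have h2 : ((!x i) = c i) ↔ ¬ (x i = c i) := by
      cases x i <;> cases c i <;> decide
    by_cases a1 : x i = c i <;> by_cases a2 : x ∈ C <;> by_cases a3 : flip x i ∈ C <;>
      simp [h2, a1, a2, a3] <;> norm_num
  have h2 : ∀ i, ∑ x, P (flip x i) i = ∑ x, P x i := fun i => sum_flip (fun x => P x i) i
  have he2 : ∀ x i, e (flip x i) i = - e x i := by
    intro x i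
    simp only [he, flip_self]
    cases x i <;> cases c i <;> simp
  have h3 : ∀ i, ∑ x, e x i * f (flip x i) = - ∑ x, e x i * f x := by
    intro i
    rw [← sum_flip (fun x => e x i * f (flip x i)) i, ← Finset.sum_neg_distrib]
    refine Finset.sum_congr rfl fun x _ => ?_
    rw [he2, flip_flip]
    ring
  have h4 : ∀ i, ∑ x, e x i * f x = 0 := by
    intro i
    have a1 := hf {i} (by simp) c
    have a2 := hf {i} (by simp) (fun j => !c j)
    simp only [Finset.mem_singleton, forall_eq] at a1 a2
    have a3 : ∑ x, e x i * f x = ∑ x, (if x i = c i then f x else 0)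
        - ∑ x, (if x i = !c i then f x else 0) := by
      rw [← Finset.sum_sub_distrib]
      refine Finset.sum_congr rfl fun x _ => ?_
      simp only [he]
      cases x i <;> cases c i <;> simp
    rw [a3, a1, a2, sub_zero]
  have h5 : ∑ x, ∑ i, (f x - f (flip x i)) ^ 2 = 16 * ∑ x, ∑ i, P x i := by
    rw [Finset.sum_comm, Finset.sum_comm (f := fun x i => P x i), Finset.mul_sum]
    refine Finset.sum_congr rfl fun i _ => ?_
    have : ∑ x, (f x - f (flip x i)) ^ 2 = 8 * ∑ x, P x i + 8 * ∑ x, P (flip x i) i
        - 2 * (∑ x, e x i * f (flip x i) - ∑ x, e x i * f x) := by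
      rw [Finset.mul_sum, Finset.mul_sum, ← Finset.sum_sub_distrib, Finset.mul_sum,
        ← Finset.sum_add_distrib, ← Finset.sum_sub_distrib]
      exact Finset.sum_congr rfl fun x _ => h1 x i
    rw [this, h2, h3, h4]
    ring
  have h6 : ∀ x, ∑ i, P x i ≤ (1 - f x) / 2 := by
    intro x
    by_cases hx : x ∈ C
    · have : ∀ i, P x i = 0 := fun i => by simp [hP, hx]
      simp [this, hfd, hx]
    · have hfx : (1 - f x) / 2 = 1 := by
        simp only [hfd, if_neg hx]
        norm_num
      rw [hfx]
      have hP2 : ∑ i, P x i = ((Finset.univ.filter fun i =>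
          x i = c i ∧ x ∉ C ∧ flip x i ∈ C).card : ℝ) := by
        simp only [hP]
        rw [Finset.sum_boole]
      rw [hP2]
      have : (Finset.univ.filter fun i => x i = c i ∧ x ∉ C ∧ flip x i ∈ C).card ≤ 1 := by
        rw [Finset.card_le_one]
        intro i hi j hj
        simp only [Finset.mem_filter, Finset.mem_univ, true_and] at hi hj
        by_contra hij
        have h7 := hc _ hi.2.2 _ hj.2.2
        have h8 : (fun l => CO.maj (c l) (flip x i l) (flip x j l)) = x := by
          funext l
          by_cases hl : l = i
          · subst hl
            rw [flip_self, flip_ne x hij, ← hi.1]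
            cases x l <;> rfl
          · by_cases hl2 : l = j
            · subst hl2
              rw [flip_self, flip_ne x hl, ← hj.1]
              cases x l <;> rfl
            · rw [flip_ne x hl, flip_ne x hl2]
              cases x l <;> cases c l <;> rfl
        rw [h8] at h7
        exact hx h7
      exact_mod_cast this
  have h7 : ∑ x, f x = 0 := by
    have := hf ∅ (by simp) c
    simpa using this
  have h8 : ∑ x : Fin n → Bool, (1 - f x) / 2 = (2 : ℝ) ^ n / 2 := by
    rw [← Finset.sum_div, Finset.sum_sub_distrib, h7]
    simp
  have h9 : ∑ x, f x ^ 2 = (2 : ℝ) ^ n := by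
    have : ∀ x, f x ^ 2 = 1 := fun x => by
      simp only [hfd]
      split_ifs <;> norm_num
    simp [this]
  have h10 := poincare n 3 f hf
  rw [h5, h9] at h10
  have h11 : ∑ x, ∑ i, P x i ≤ (2 : ℝ) ^ n / 2 := by
    rw [← h8]
    exact Finset.sum_le_sum fun x _ => h6 x
  have h12 : (0 : ℝ) < 2 ^ n := by positivity
  push_cast at h10
  linarith

/-- Exclusive or of three words. -/
def x3 (x y z : Fin n → Bool) : Fin n → Bool := fun l => xor (x l) (xor (y l) (z l))

/-- A flip-invariant function is constant. -/
theorem const_of_flip (θ : (Fin n → Bool) → Bool) (h : ∀ x i, θ (flip x i) = θ x)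
    (x y : Fin n → Bool) : θ x = θ y := by
  classical
  have key : ∀ T : Finset (Fin n), θ (T.piecewise x y) = θ y := by
    intro T
    induction T using Finset.induction_on with
    | empty => simp
    | insert i T _ ih =>
      rw [Finset.piecewise_insert, ← ih]
      by_cases hi : x i = T.piecewise x y i
      · rw [hi, Function.update_eq_self]
      · have : x i = ! T.piecewise x y i := by
          revert hi
          cases x i <;> cases T.piecewise x y i <;> simp
        rw [this]
        exact h _ i
  have := key Finset.univ
  rwa [Finset.piecewise_univ] at this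

theorem dec_succ (k : ℕ) : decide (Odd (k + 1)) = !decide (Odd k) := by
  by_cases h : Odd k
  · have h1 : ¬ Odd (k + 1) := by
      rw [Nat.odd_add_one]
      exact fun h2 => h2 h
    rw [decide_eq_true h, decide_eq_false h1]
    rfl
  · have h1 : Odd (k + 1) := Nat.odd_add_one.2 h
    rw [decide_eq_false h, decide_eq_true h1]
    rfl

theorem parity_flip (S : Finset (Fin n)) (x : Fin n → Bool) (i : Fin n) :
    decide (Odd (S.filter fun l => flip x i l = true).card)
      = xor (decide (Odd (S.filter fun l => x l = true).card)) (decide (i ∈ S)) := by
  classical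
  by_cases hi : i ∈ S
  · cases hx : x i
    · have h1 : (S.filter fun l => flip x i l = true) = insert i (S.filter fun l => x l = true) := by
        ext l
        by_cases hl : l = i
        · subst hl
          simp [flip_self, hx, hi]
        · simp [flip_ne x hl, hl]
      rw [h1, Finset.card_insert_of_notMem (by simp [hx]), dec_succ, decide_eq_true hi]
      simp
    · have h1 : (S.filter fun l => x l = true)
          = insert i (S.filter fun l => flip x i l = true) := by
        ext l
        by_cases hl : l = i
        · subst hl
          simp [hx, hi]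
        · simp [flip_ne x hl, hl]
      rw [h1, Finset.card_insert_of_notMem (by simp [flip_self, hx]), dec_succ, decide_eq_true hi]
      simp
  · have h1 : (S.filter fun l => flip x i l = true) = S.filter fun l => x l = true := by
      refine Finset.filter_congr fun l hl => ?_
      rw [flip_ne x (by rintro rfl; exact hi hl)]
    rw [h1]
    simp [hi]

theorem affine_of_x3 (f : (Fin n → Bool) → Bool) (b : Bool)
    (h3 : ∀ x y z, f x = b → f y = b → f z = b → f (x3 x y z) = b)
    (hcard : (Finset.univ.filter fun x => f x = b).card
      = (Finset.univ.filter fun x => f x ≠ b).card) : CO.Affine f := by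
  classical
  have hne : ∃ x0, f x0 = b := by
    by_contra hcon
    push Not at hcon
    have h1 : (Finset.univ.filter fun x => f x = b) = ∅ := by
      rw [Finset.filter_eq_empty_iff]
      exact fun x _ => hcon x
    have h2 : (Finset.univ.filter fun x => f x ≠ b) = Finset.univ := by
      rw [Finset.filter_eq_self]
      exact fun x _ => hcon x
    rw [h1, h2] at hcard
    simp at hcard
    exact absurd hcard.symm (by positivity)
  obtain ⟨x0, hx0⟩ := hne
  have inv : ∀ x y : Fin n → Bool, x3 (x3 y x x0) x x0 = y := by
    intro x y
    funext l
    simp only [x3]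
    cases x l <;> cases y l <;> cases x0 l <;> rfl
  have idx : ∀ x z, f x ≠ b → f z ≠ b → f (x3 z x x0) = b := by
    intro x z hx hz
    have h1 : ((Finset.univ.filter fun x => f x = b).image fun y => x3 y x x0)
        = Finset.univ.filter fun x => f x ≠ b := by
      refine Finset.eq_of_subset_of_card_le ?_ ?_
      · intro w hw
        simp only [Finset.mem_image, Finset.mem_filter, Finset.mem_univ, true_and] at hw ⊢
        obtain ⟨y, hy, rfl⟩ := hw
        intro hcon
        have h4 := h3 _ _ _ hy hcon hx0
        have h5 : x3 y (x3 y x x0) x0 = x := by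
          funext l
          simp only [x3]
          cases x l <;> cases y l <;> cases x0 l <;> rfl
        rw [h5] at h4
        exact hx h4
      · rw [Finset.card_image_of_injective, hcard]
        intro y y' hyy
        have := congrArg (fun w => x3 w x x0) hyy
        simpa only [inv] using this
    have h2 : z ∈ (Finset.univ.filter fun x => f x = b).image fun y => x3 y x x0 := by
      rw [h1]
      simpa using hz
    simp only [Finset.mem_image, Finset.mem_filter, Finset.mem_univ, true_and] at h2
    obtain ⟨y, hy, rfl⟩ := h2
    rw [inv]
    exact hy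
  set S : Finset (Fin n) := Finset.univ.filter fun i => f (flip x0 i) ≠ b with hS
  have fl : ∀ x i, x3 x x0 (flip x0 i) = flip x i := by
    intro x i
    funext l
    simp only [x3]
    by_cases hl : l = i
    · subst hl
      rw [flip_self, flip_self]
      cases x l <;> cases x0 l <;> rfl
    · rw [flip_ne x hl, flip_ne x0 hl]
      cases x l <;> cases x0 l <;> rfl
  have fl2 : ∀ x i, x3 x (flip x i) x0 = flip x0 i := by
    intro x i
    funext l
    simp only [x3]
    by_cases hl : l = i
    · subst hl
      rw [flip_self, flip_self]
      cases x l <;> cases x0 l <;> rfl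
    · rw [flip_ne x hl, flip_ne x0 hl]
      cases x l <;> cases x0 l <;> rfl
  have fl3 : ∀ x i, x3 (flip x0 i) x x0 = flip x i := by
    intro x i
    funext l
    simp only [x3]
    by_cases hl : l = i
    · subst hl
      rw [flip_self, flip_self]
      cases x l <;> cases x0 l <;> rfl
    · rw [flip_ne x hl, flip_ne x0 hl]
      cases x l <;> cases x0 l <;> rfl
  have key : ∀ x i, f (flip x i) = xor (f x) (decide (i ∈ S)) := by
    intro x i
    by_cases hi : i ∈ S
    · have hi' : f (flip x0 i) ≠ b := by simpa [hS] using hi
      have h1 : (f (flip x i) = b) ↔ ¬ (f x = b) := by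
        constructor
        · intro h h'
          have := h3 _ _ _ h' h hx0
          rw [fl2] at this
          exact hi' this
        · intro h
          have := idx x (flip x0 i) h hi'
          rwa [fl3] at this
      revert h1
      simp only [hi, decide_true]
      cases f (flip x i) <;> cases f x <;> cases b <;> simp
    · have hi' : f (flip x0 i) = b := by simpa [hS] using hi
      have h1 : (f (flip x i) = b) ↔ (f x = b) := by
        constructor
        · intro h
          have := h3 _ _ _ h hx0 hi'
          rwa [fl, flip_flip] at this
        · intro h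
          have := h3 _ _ _ h hx0 hi'
          rwa [fl] at this
      revert h1
      simp only [hi, decide_false]
      cases f (flip x i) <;> cases f x <;> cases b <;> simp
  refine ⟨xor (f x0) (decide (Odd (S.filter fun l => x0 l = true).card)), S, fun x => ?_⟩
  have h5 := const_of_flip
    (fun x => xor (f x) (decide (Odd (S.filter fun l => x l = true).card)))
    (fun x i => by
      rw [parity_flip, key]
      cases f x <;> cases decide (i ∈ S) <;>
        cases decide (Odd (S.filter fun l => x l = true).card) <;> rfl) x x0
  rw [← h5]
  cases f x <;> cases decide (Odd (S.filter fun l => x l = true).card) <;> rfl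

end Pool.Agent.V11160.JU
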