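import Mathlib
import Pool.Agent.V11160.CodeOps
import Pool.Agent.V11160.JU.B
set_option autoImplicit false

/-! # Low Fourier coefficients of functions closed under an operation -/

namespace Pool.Agent.V11160.JU

open Finset

/-- The character of `S`. -/
noncomputable def chi {n : ℕ} (S x : Fin n → Bool) : ℝ := ∏ i, if S i && x i then -1 else 1

/-- The Fourier coefficient. -/
noncomputable def hat {n : ℕ} (f : (Fin n → Bool) → ℝ) (S : Fin n → Bool) : ℝ :=
  (∑ x, f x * chi S x) / 2 ^ n

/-- The size of `S`. -/
def wt {n : ℕ} (S : Fin n → Bool) : ℕ := ∑ i, (S i).toNat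

/-- The Fourier weight below level `t`. -/
noncomputable def low {n : ℕ} (t : ℕ) (f : (Fin n → Bool) → ℝ) : ℝ :=
  ∑ S, if wt S < t then (hat f S) ^ 2 else 0

theorem chi_cons {n : ℕ} (s b : Bool) (S x : Fin n → Bool) :
    chi (Fin.cons (α := fun _ => Bool) s S) (Fin.cons (α := fun _ => Bool) b x)
      = (if s && b then -1 else 1) * chi S x := by
  unfold chi
  rw [Fin.prod_univ_succ]
  simp only [Fin.cons_zero, Fin.cons_succ]

theorem wt_cons {n : ℕ} (s : Bool) (S : Fin n → Bool) :
    wt (Fin.cons (α := fun _ => Bool) s S) = s.toNat + wt S := by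
  unfold wt
  rw [Fin.sum_univ_succ]
  simp only [Fin.cons_zero, Fin.cons_succ]

theorem poincare' : ∀ (n t : ℕ) (f : (Fin n → Bool) → ℝ),
    4 * t * ∑ x, f x ^ 2 ≤ ∑ x, ∑ i, (f x - f (flip x i)) ^ 2 + 4 * t * 2 ^ n * low t f := by
  intro n
  induction n with
  | zero =>
    intro t f
    rcases Nat.eq_zero_or_pos t with ht | ht
    · subst ht
      simp
    · have h1 : low t f = ∑ x, f x ^ 2 := by
        unfold low
        refine Finset.sum_congr rfl fun S _ => ?_
        have h2 : wt S = 0 := by simp [wt]
        rw [h2, if_pos ht]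
        congr 1
        unfold hat
        rw [Fintype.sum_subsingleton _ S]
        simp [chi]
      rw [h1]
      simp
  | succ n ih =>
    intro t f
    set g : (Fin n → Bool) → ℝ := fun x =>
      (f (Fin.cons (α := fun _ => Bool) false x) + f (Fin.cons (α := fun _ => Bool) true x)) / 2
      with hg
    set h : (Fin n → Bool) → ℝ := fun x =>
      (f (Fin.cons (α := fun _ => Bool) false x) - f (Fin.cons (α := fun _ => Bool) true x)) / 2
      with hh
    have hf0 : ∀ x, f (Fin.cons (α := fun _ => Bool) false x) = g x + h x := by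
      intro x
      simp only [hg, hh]
      ring
    have hf1 : ∀ x, f (Fin.cons (α := fun _ => Bool) true x) = g x - h x := by
      intro x
      simp only [hg, hh]
      ring
    have hatg : ∀ S, hat f (Fin.cons (α := fun _ => Bool) false S) = hat g S := by
      intro S
      unfold hat
      rw [sum_cons, pow_succ, div_eq_div_iff (by positivity) (by positivity), Finset.sum_mul,
        Finset.sum_mul]
      refine Finset.sum_congr rfl fun x _ => ?_
      rw [chi_cons, chi_cons, hf0, hf1]
      simp only [Bool.false_and, Bool.false_eq_true, if_false]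
      ring
    have hath : ∀ S, hat f (Fin.cons (α := fun _ => Bool) true S) = hat h S := by
      intro S
      unfold hat
      rw [sum_cons, pow_succ, div_eq_div_iff (by positivity) (by positivity), Finset.sum_mul,
        Finset.sum_mul]
      refine Finset.sum_congr rfl fun x _ => ?_
      rw [chi_cons, chi_cons, hf0, hf1]
      simp only [Bool.and_false, Bool.and_true, Bool.false_eq_true, if_false, if_true]
      ring
    have hlow : low t f = low t g + low (t - 1) h := by
      unfold low
      rw [sum_cons, ← Finset.sum_add_distrib]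
      refine Finset.sum_congr rfl fun S _ => ?_
      rw [hatg, hath, wt_cons, wt_cons]
      congr 1
      · simp
      · have : (true.toNat + wt S < t) ↔ (wt S < t - 1) := by
          simp only [Bool.toNat_true]
          omega
        simp only [this]
    have e1 : ∑ x, f x ^ 2 = 2 * ∑ x, g x ^ 2 + 2 * ∑ x, h x ^ 2 := by
      rw [sum_cons, Finset.mul_sum, Finset.mul_sum, ← Finset.sum_add_distrib]
      refine Finset.sum_congr rfl fun x _ => ?_
      rw [hf0, hf1]
      ring
    have e2 : ∑ x, ∑ i, (f x - f (flip x i)) ^ 2 = 8 * ∑ x, h x ^ 2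
        + 2 * ∑ x, ∑ i, (g x - g (flip x i)) ^ 2 + 2 * ∑ x, ∑ i, (h x - h (flip x i)) ^ 2 := by
      rw [sum_cons, Finset.mul_sum, Finset.mul_sum, Finset.mul_sum, ← Finset.sum_add_distrib,
        ← Finset.sum_add_distrib]
      refine Finset.sum_congr rfl fun x _ => ?_
      simp only [Fin.sum_univ_succ, flip_cons_zero, flip_cons_succ, Bool.not_false, Bool.not_true,
        hf0, hf1]
      rw [Finset.mul_sum, Finset.mul_sum]
      have : ∑ i, (g x + h x - (g (flip x i) + h (flip x i))) ^ 2
          + ∑ i, (g x - h x - (g (flip x i) - h (flip x i))) ^ 2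
          = ∑ i, 2 * (g x - g (flip x i)) ^ 2 + ∑ i, 2 * (h x - h (flip x i)) ^ 2 := by
        rw [← Finset.sum_add_distrib, ← Finset.sum_add_distrib]
        exact Finset.sum_congr rfl fun i _ => by ring
      linear_combination this
    have i1 := ih t g
    have i2 := ih (t - 1) h
    have hn : 0 ≤ ∑ x, h x ^ 2 := Finset.sum_nonneg fun x _ => sq_nonneg _
    have hl : 0 ≤ low (t - 1) h := Finset.sum_nonneg fun S _ => by
      split_ifs
      · exact sq_nonneg _
      · exact le_rfl
    have ht : (t : ℝ) - 1 ≤ ((t - 1 : ℕ) : ℝ) := by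
      rcases Nat.eq_zero_or_pos t with h0 | h0
      · subst h0
        norm_num
      · rw [Nat.cast_sub h0]
        norm_num
    have ht2 : ((t - 1 : ℕ) : ℝ) ≤ t := by exact_mod_cast Nat.sub_le t 1
    rw [e1, e2, hlow, pow_succ]
    have i3 : 4 * ((t : ℝ) - 1) * ∑ x, h x ^ 2 ≤ ∑ x, ∑ i, (h x - h (flip x i)) ^ 2
        + 4 * t * 2 ^ n * low (t - 1) h := by
      refine (le_trans ?_ i2).trans ?_
      · gcongr
      · gcongr
    nlinarith [i1, i3]

end Pool.Agent.V11160.JU
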