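import Mathlib
import Pool.Agent.V11160.JU.F
set_option autoImplicit false

/-! # Low Fourier coefficients of functions closed under an operation -/

namespace Pool.Agent.V11160.JU

open Finset

variable {n : ℕ}

theorem wt_eq (S : Fin n → Bool) : wt S = (univ.filter fun i => S i = true).card := by
  unfold wt
  rw [Finset.card_filter]
  refine Finset.sum_congr rfl fun i _ => ?_
  cases S i <;> simp

theorem card_wt (hn : 0 < n) :
    (univ.filter fun S : Fin n → Bool => wt S < 3).card ≤ 2 * n ^ 2 := by
  classical
  have h1 : (univ.filter fun S : Fin n → Bool => wt S < 3) ⊆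
      insert (fun _ => false) (univ.image fun p : Fin n × Fin n =>
        fun j => decide (j = p.1 ∨ j = p.2)) := by
    intro S hS
    simp only [Finset.mem_filter, Finset.mem_univ, true_and] at hS
    rw [wt_eq] at hS
    rw [Finset.mem_insert]
    have hmem : ∀ l, l ∈ (univ.filter fun i => S i = true) ↔ S l = true := by simp
    have h3 : (univ.filter fun i => S i = true).card = 0 ∨
        (univ.filter fun i => S i = true).card = 1 ∨
        (univ.filter fun i => S i = true).card = 2 := by omega
    rcases h3 with h3 | h3 | h3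
    · left
      rw [Finset.card_eq_zero] at h3
      funext l
      have := hmem l
      rw [h3] at this
      simpa using this
    · right
      rw [Finset.card_eq_one] at h3
      obtain ⟨a, ha⟩ := h3
      rw [Finset.mem_image]
      refine ⟨(a, a), Finset.mem_univ _, ?_⟩
      funext l
      have := hmem l
      rw [ha, Finset.mem_singleton] at this
      simp only [or_self]
      by_cases hl : l = a
      · rw [decide_eq_true hl, this.1 hl]
      · rw [decide_eq_false hl]
        cases hs : S l
        · rfl
        · exact absurd (this.2 hs) hl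
    · right
      rw [Finset.card_eq_two] at h3
      obtain ⟨a, b, -, ha⟩ := h3
      rw [Finset.mem_image]
      refine ⟨(a, b), Finset.mem_univ _, ?_⟩
      funext l
      have := hmem l
      rw [ha, Finset.mem_insert, Finset.mem_singleton] at this
      simp only
      by_cases hl : l = a ∨ l = b
      · rw [decide_eq_true hl, this.1 hl]
      · rw [decide_eq_false hl]
        cases hs : S l
        · rfl
        · exact absurd (this.2 hs) hl
  have h2 := Finset.card_le_card h1
  have h3 := Finset.card_insert_le (fun _ : Fin n => false)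
    (univ.image fun p : Fin n × Fin n => fun j : Fin n => decide (j = p.1 ∨ j = p.2))
  have h4 : (univ.image fun p : Fin n × Fin n => fun j : Fin n =>
      decide (j = p.1 ∨ j = p.2)).card ≤ n * n := by
    refine Finset.card_image_le.trans ?_
    simp
  have h5 : 1 ≤ n * n := Nat.mul_pos hn hn
  rw [pow_two]
  omega

theorem low_coeff (C : Finset (Fin n → Bool)) (hC : CO.MajClosed C) (hn : 0 < n) :
    ∃ S : Fin n → Bool, wt S ≤ 2 ∧
      1 / (5 * (n : ℝ)) ≤ |hat (fun x => if x ∈ C then (1 : ℝ) else -1) S| := by
  classical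
  obtain ⟨c, hc⟩ := hC
  set f : (Fin n → Bool) → ℝ := fun x => if x ∈ C then (1 : ℝ) else -1 with hfd
  by_contra hcon
  push Not at hcon
  set η : ℝ := 1 / (5 * (n : ℝ)) with hη
  have hnR : (0 : ℝ) < n := by exact_mod_cast hn
  have hn1 : (1 : ℝ) ≤ n := by exact_mod_cast hn
  have hηn : (n : ℝ) * η = 1 / 5 := by
    rw [hη]
    field_simp
  have hη0 : 0 < η := by positivity
  have hη5 : η ≤ 1 / 5 := by
    rw [← hηn]
    nlinarith
  set P : (Fin n → Bool) → Fin n → ℝ :=
    fun x i => if x i = c i ∧ x ∉ C ∧ flip x i ∈ C then 1 else 0 with hP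
  set e : (Fin n → Bool) → Fin n → ℝ := fun x i => if x i = c i then 1 else -1 with he
  have h1 : ∀ x i, (f x - f (flip x i)) ^ 2
      = 8 * P x i + 8 * P (flip x i) i - 2 * (e x i * f (flip x i) - e x i * f x) := by
    intro x i
    simp only [hfd, hP, he, flip_flip, flip_self]
    have h2 : ((!x i) = c i) ↔ ¬ (x i = c i) := by
      cases x i <;> cases c i <;> decide
    by_cases a1 : x i = c i <;> by_cases a2 : x ∈ C <;> by_cases a3 : flip x i ∈ C <;>
      simp [h2, a1, a2, a3] <;> norm_num
  have h2 : ∀ i, ∑ x, P (flip x i) i = ∑ x, P x i := fun i => sum_flip (fun x => P x i) i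
  have he2 : ∀ x i, e (flip x i) i = - e x i := by
    intro x i
    simp only [he, flip_self]
    cases x i <;> cases c i <;> simp
  have h3 : ∀ i, ∑ x, e x i * f (flip x i) = - ∑ x, e x i * f x := by
    intro i
    rw [← sum_flip (fun x => e x i * f (flip x i)) i, ← Finset.sum_neg_distrib]
    refine Finset.sum_congr rfl fun x _ => ?_
    rw [he2, flip_flip]
    ring
  have h4 : ∀ i, ∑ x, e x i * f x ≤ 2 ^ n * η := by
    intro i
    have a1 : ∀ x : Fin n → Bool, chi (fun j => decide (j = i)) x = if x i then -1 else 1 := by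
      intro x
      unfold chi
      rw [Finset.prod_eq_single i]
      · simp
      · intro j _ hj
        simp [hj]
      · simp
    have a2 : wt (fun j : Fin n => decide (j = i)) ≤ 2 := by
      rw [wt_eq]
      have : (univ.filter fun j : Fin n => decide (j = i) = true) = {i} := by
        ext j
        simp
      rw [this]
      simp
    have a3 := hcon _ a2
    have a4 : ∑ x, e x i * f x = (if c i then -1 else 1) * (2 ^ n * hat f (fun j => decide (j = i))) := by
      unfold hat
      rw [mul_div_cancel₀ _ (by positivity), Finset.mul_sum]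
      refine Finset.sum_congr rfl fun x _ => ?_
      rw [a1]
      simp only [he]
      cases x i <;> cases c i <;> simp
    rw [a4]
    have a5 := abs_lt.1 a3
    have a6 : (0 : ℝ) < 2 ^ n := by positivity
    cases c i
    · simp only [Bool.false_eq_true, if_false, one_mul]
      exact mul_le_mul_of_nonneg_left a5.2.le a6.le
    · simp only [if_true]
      nlinarith [a5.1]
  have h5 : ∑ x, ∑ i, (f x - f (flip x i)) ^ 2
      = 16 * ∑ x, ∑ i, P x i + 4 * ∑ i, ∑ x, e x i * f x := by
    rw [Finset.sum_comm, Finset.sum_comm (f := fun x i => P x i), Finset.mul_sum, Finset.mul_sum,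
      ← Finset.sum_add_distrib]
    refine Finset.sum_congr rfl fun i _ => ?_
    have : ∑ x, (f x - f (flip x i)) ^ 2 = 8 * ∑ x, P x i + 8 * ∑ x, P (flip x i) i
        - 2 * (∑ x, e x i * f (flip x i) - ∑ x, e x i * f x) := by
      rw [Finset.mul_sum, Finset.mul_sum, ← Finset.sum_sub_distrib, Finset.mul_sum,
        ← Finset.sum_add_distrib, ← Finset.sum_sub_distrib]
      exact Finset.sum_congr rfl fun x _ => h1 x i
    rw [this, h2, h3]
    ring
  have h6 : ∀ x, ∑ i, P x i ≤ (1 - f x) / 2 := by
    intro x
    by_cases hx : x ∈ C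
    · have : ∀ i, P x i = 0 := fun i => by simp [hP, hx]
      simp [this, hfd, hx]
    · have hfx : (1 - f x) / 2 = 1 := by
        simp only [hfd, if_neg hx]
        norm_num
      rw [hfx]
      have hP2 : ∑ i, P x i = ((Finset.univ.filter fun i =>
          x i = c i ∧ x ∉ C ∧ flip x i ∈ C).card : ℝ) := by
        simp only [hP]
        rw [Finset.sum_boole]
      rw [hP2]
      have : (Finset.univ.filter fun i => x i = c i ∧ x ∉ C ∧ flip x i ∈ C).card ≤ 1 := by
        rw [Finset.card_le_one]
        intro i hi j hj
        simp only [Finset.mem_filter, Finset.mem_univ, true_and] at hi hj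
        by_contra hij
        have h7 := hc _ hi.2.2 _ hj.2.2
        have h8 : (fun l => CO.maj (c l) (flip x i l) (flip x j l)) = x := by
          funext l
          by_cases hl : l = i
          · subst hl
            rw [flip_self, flip_ne x hij, ← hi.1]
            cases x l <;> rfl
          · by_cases hl2 : l = j
            · subst hl2
              rw [flip_self, flip_ne x hl, ← hj.1]
              cases x l <;> rfl
            · rw [flip_ne x hl, flip_ne x hl2]
              cases x l <;> cases c l <;> rfl
        rw [h8] at h7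
        exact hx h7
      exact_mod_cast this
  have hN : (0 : ℝ) < 2 ^ n := by positivity
  have h8 : ∑ x : Fin n → Bool, (1 - f x) / 2 ≤ (2 : ℝ) ^ n * (1 + η) / 2 := by
    have a1 : ∀ x : Fin n → Bool, chi (fun _ => false) x = 1 := by
      intro x
      simp [chi]
    have a2 := (abs_lt.1 (hcon (fun _ => false) (by simp [wt]))).1
    have a3 : ∑ x, f x = 2 ^ n * hat f (fun _ => false) := by
      unfold hat
      rw [mul_div_cancel₀ _ (by positivity)]
      exact Finset.sum_congr rfl fun x _ => by rw [a1, mul_one]
    rw [← Finset.sum_div, Finset.sum_sub_distrib, a3]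
    simp only [Finset.sum_const, Finset.card_univ, Fintype.card_pi, Fintype.card_bool,
      Finset.prod_const, Fintype.card_fin, nsmul_eq_mul, mul_one]
    push_cast
    have : -(2 ^ n * hat f (fun _ => false)) ≤ 2 ^ n * η := by nlinarith
    linarith
  have h9 : ∑ x, f x ^ 2 = (2 : ℝ) ^ n := by
    have : ∀ x, f x ^ 2 = 1 := fun x => by
      simp only [hfd]
      split_ifs <;> norm_num
    simp [this]
  have h10 := poincare' n 3 f
  rw [h5, h9] at h10
  have h11 : ∑ x, ∑ i, P x i ≤ (2 : ℝ) ^ n * (1 + η) / 2 := by
    refine le_trans ?_ h8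
    exact Finset.sum_le_sum fun x _ => h6 x
  have h12 : ∑ i, ∑ x, e x i * f x ≤ 2 ^ n * (1 / 5) := by
    calc ∑ i, ∑ x, e x i * f x ≤ ∑ _i : Fin n, 2 ^ n * η := Finset.sum_le_sum fun i _ => h4 i
      _ = 2 ^ n * ((n : ℝ) * η) := by
        simp
        ring
      _ = _ := by rw [hηn]
  have h13 : low 3 f ≤ 2 / 25 := by
    have a1 : low 3 f ≤ ∑ S : Fin n → Bool, if wt S < 3 then η ^ 2 else 0 := by
      unfold low
      refine Finset.sum_le_sum fun S _ => ?_
      split_ifs with hS
      · have := hcon S (by omega)
        rw [← sq_abs]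
        exact pow_le_pow_left₀ (abs_nonneg _) this.le 2
      · exact le_rfl
    have a2 : (∑ S : Fin n → Bool, if wt S < 3 then η ^ 2 else 0)
        = ((univ.filter fun S : Fin n → Bool => wt S < 3).card : ℝ) * η ^ 2 := by
      rw [← Finset.sum_filter, Finset.sum_const, nsmul_eq_mul]
    have a3 : ((univ.filter fun S : Fin n → Bool => wt S < 3).card : ℝ) ≤ 2 * (n : ℝ) ^ 2 := by
      exact_mod_cast card_wt hn
    rw [a2] at a1
    refine a1.trans ((mul_le_mul_of_nonneg_right a3 (sq_nonneg η)).trans (le_of_eq ?_))
    calc 2 * (n : ℝ) ^ 2 * η ^ 2 = 2 * ((n : ℝ) * η) ^ 2 := by ring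
      _ = 2 / 25 := by
        rw [hηn]
        norm_num
  have h14 : (2 : ℝ) ^ n * low 3 f ≤ 2 ^ n * (2 / 25) := mul_le_mul_of_nonneg_left h13 hN.le
  have h15 : (2 : ℝ) ^ n * (1 + η) / 2 ≤ 2 ^ n * (3 / 5) := by nlinarith
  push_cast at h10
  nlinarith

end Pool.Agent.V11160.JU
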