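import Mathlib
set_option autoImplicit false

/-! # Transitive monotone functions closed under coordinatewise operations -/

namespace Pool.Agent.V11160.JU.E

open Finset

variable {n : ℕ}

/-- `f` is computed by a decision tree of depth at most `k` (as in the frozen statement). -/
def DepthLe (k : ℕ) (f : (Fin n → Bool) → Bool) : Prop :=
  ∀ P : ℕ → ((Fin n → Bool) → Bool) → Prop,
    (∀ (m : ℕ) (g : (Fin n → Bool) → Bool), (∀ x y, g x = g y) → P m g) →
    (∀ (m : ℕ) (g : (Fin n → Bool) → Bool) (i : Fin n),
       P m (fun x => g (Function.update x i false)) →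
       P m (fun x => g (Function.update x i true)) → P (m + 1) g) →
    P k f

/-- The coordinates at which `f` is sensitive at `x`. -/
def sens (f : (Fin n → Bool) → Bool) (x : Fin n → Bool) : Finset (Fin n) :=
  univ.filter fun j => f (Function.update x j (!x j)) ≠ f x

theorem sens_le {k : ℕ} {f : (Fin n → Bool) → Bool} (h : DepthLe k f) (x : Fin n → Bool) :
    (sens f x).card ≤ k := by
  classical
  refine h (fun m g => ∀ x, (sens g x).card ≤ m) ?_ ?_ x
  · intro m g hg x
    have : sens g x = ∅ := by
      unfold sens
      rw [Finset.filter_eq_empty_iff]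
      intro j _ hj
      exact hj (hg _ _)
    rw [this]
    simp
  · intro m g i h0 h1 x
    have key : ∀ b, x i = b →
        sens g x ⊆ insert i (sens (fun x => g (Function.update x i b)) x) := by
      intro b hb j hj
      rw [Finset.mem_insert]
      by_cases hji : j = i
      · exact Or.inl hji
      · right
        simp only [sens, Finset.mem_filter, Finset.mem_univ, true_and] at hj ⊢
        have e1 : Function.update x i b = x := by
          rw [← hb, Function.update_eq_self]
        have e2 : Function.update (Function.update x j (!x j)) i b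
            = Function.update x j (!x j) := by
          rw [Function.update_comm hji, e1]
        rw [e1, e2]
        exact hj
    cases hx : x i
    · exact (Finset.card_le_card (key false hx)).trans ((Finset.card_insert_le _ _).trans
        (Nat.succ_le_succ (h0 x)))
    · exact (Finset.card_le_card (key true hx)).trans ((Finset.card_insert_le _ _).trans
        (Nat.succ_le_succ (h1 x)))

/-- `f` is invariant under a transitive group of permutations of the variables. -/
def Transitive (f : (Fin n → Bool) → Bool) : Prop :=
  ∀ i j : Fin n, ∃ σ : Equiv.Perm (Fin n), σ i = j ∧ ∀ x : Fin n → Bool, f (x ∘ σ) = f x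

/-- Two sets all of whose translates meet. -/
theorem meet (f : (Fin n → Bool) → Bool) (hT : Transitive f) (C X : Finset (Fin n))
    (h : ∀ σ : Equiv.Perm (Fin n), (∀ x : Fin n → Bool, f (x ∘ σ) = f x) →
      ∃ c ∈ C, σ c ∈ X) : n ≤ C.card * X.card := by
  classical
  rcases Nat.eq_zero_or_pos n with h0 | hn
  · subst h0
    simp
  set G : Finset (Equiv.Perm (Fin n)) :=
    univ.filter fun σ => ∀ x : Fin n → Bool, f (x ∘ σ) = f x with hG
  have hmul : ∀ σ ∈ G, ∀ τ ∈ G, σ * τ ∈ G := by
    intro σ hσ τ hτ
    simp only [hG, Finset.mem_filter, Finset.mem_univ, true_and] at hσ hτ ⊢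
    intro x
    have : x ∘ (σ * τ : Equiv.Perm (Fin n)) = (x ∘ σ) ∘ τ := rfl
    rw [this, hτ, hσ]
  have h1G : (1 : Equiv.Perm (Fin n)) ∈ G := by
    simp only [hG, Finset.mem_filter, Finset.mem_univ, true_and]
    intro x
    rfl
  have hfib : ∀ c a b : Fin n, (G.filter fun σ => σ c = a).card ≤ (G.filter fun σ => σ c = b).card := by
    intro c a b
    obtain ⟨τ, hτ1, hτ2⟩ := hT a b
    have hτG : τ ∈ G := by
      simp only [hG, Finset.mem_filter, Finset.mem_univ, true_and]
      exact hτ2
    refine Finset.card_le_card_of_injOn (fun σ => τ * σ) ?_ ?_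
    · intro σ hσ
      simp only [Finset.coe_filter, Set.mem_ofPred_eq] at hσ ⊢
      refine ⟨hmul _ hτG _ hσ.1, ?_⟩
      rw [Equiv.Perm.mul_apply, hσ.2, hτ1]
    · intro σ _ σ' _ hs
      exact mul_left_cancel hs
  have hfib2 : ∀ c a : Fin n, n * (G.filter fun σ => σ c = a).card = G.card := by
    intro c a
    have h2 : G.card = ∑ b : Fin n, (G.filter fun σ => σ c = b).card := by
      exact Finset.card_eq_sum_card_fiberwise (f := fun σ : Equiv.Perm (Fin n) => σ c)
        (t := univ) (fun σ _ => by simp)
    rw [h2, Finset.sum_congr rfl fun b _ => le_antisymm (hfib c b a) (hfib c a b)]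
    simp
  have h3 : G.card ≤ ∑ c ∈ C, ∑ a ∈ X, (G.filter fun σ => σ c = a).card := by
    calc G.card ≤ (C.biUnion fun c => X.biUnion fun a => G.filter fun σ => σ c = a).card := by
          refine Finset.card_le_card fun σ hσ => ?_
          have hσ' : ∀ x : Fin n → Bool, f (x ∘ σ) = f x := by
            simpa [hG] using hσ
          obtain ⟨c, hc, hX⟩ := h σ hσ'
          simp only [Finset.mem_biUnion, Finset.mem_filter]
          exact ⟨c, hc, σ c, hX, hσ, rfl⟩
      _ ≤ ∑ c ∈ C, (X.biUnion fun a => G.filter fun σ => σ c = a).card :=
          Finset.card_biUnion_le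
      _ ≤ _ := Finset.sum_le_sum fun c _ => Finset.card_biUnion_le
  have h4 : n * G.card ≤ C.card * X.card * G.card := by
    calc n * G.card ≤ n * ∑ c ∈ C, ∑ a ∈ X, (G.filter fun σ => σ c = a).card :=
          Nat.mul_le_mul_left _ h3
      _ = ∑ c ∈ C, ∑ a ∈ X, G.card := by
          rw [Finset.mul_sum]
          refine Finset.sum_congr rfl fun c _ => ?_
          rw [Finset.mul_sum]
          exact Finset.sum_congr rfl fun a _ => hfib2 c a
      _ = C.card * X.card * G.card := by
          simp [mul_assoc]
  exact Nat.le_of_mul_le_mul_right h4 (Finset.card_pos.2 ⟨1, h1G⟩)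

/-- The main case: the ones are closed under operations that are not above a projection. -/
theorem main {m : ℕ} (f : (Fin n → Bool) → Bool) (hmono : Monotone f)
    (hne : ∃ x y, f x ≠ f y) (hT : Transitive f) (g : Fin n → (Fin m → Bool) → Bool)
    (h0 : ∀ l, ∃ a, g l a = false) (hg : ∀ l i, ∃ a : Fin m → Bool, a i = true ∧ g l a = false)
    (hcl : ∀ w : Fin m → Fin n → Bool, (∀ j, f (w j) = true) →
      f (fun l => g l fun j => w j l) = true) :
    ∃ x, n ≤ (m - 1) * (sens f x).card := by
  classical
  have hbot : f (fun _ => false) = false := by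
    by_contra hcon
    have h1 : ∀ x, f x = true := by
      intro x
      have h2 : f (fun _ => false) ≤ f x := hmono (fun l => Bool.false_le _)
      rw [Bool.not_eq_false] at hcon
      rw [hcon] at h2
      exact top_le_iff.1 h2
    obtain ⟨x, y, hxy⟩ := hne
    exact hxy (by rw [h1, h1])
  have htop : f (fun _ => true) = true := by
    by_contra hcon
    have h1 : ∀ x, f x = false := by
      intro x
      have h2 : f x ≤ f (fun _ => true) := hmono (fun l => Bool.le_true _)
      rw [Bool.not_eq_true] at hcon
      rw [hcon] at h2
      exact le_bot_iff.1 h2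
    obtain ⟨x, y, hxy⟩ := hne
    exact hxy (by rw [h1, h1])
  -- the minimal clause
  set off : Finset (Fin n) → (Fin n → Bool) := fun C l => !decide (l ∈ C) with hoff
  obtain ⟨C, hC, hCmin⟩ := Finset.exists_min_image
    ((univ : Finset (Finset (Fin n))).filter fun C => f (off C) = false) (fun C => C.card)
    ⟨univ, by
      simp only [Finset.mem_filter, Finset.mem_univ, true_and]
      rw [← hbot]
      congr 1
      funext l
      simp [hoff]⟩
  simp only [Finset.mem_filter, Finset.mem_univ, true_and] at hC hCmin
  have hCer : ∀ c ∈ C, f (off (C.erase c)) = true := by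
    intro c hc
    by_contra hcon
    rw [Bool.not_eq_true] at hcon
    have := hCmin _ hcon
    rw [Finset.card_erase_of_mem hc] at this
    have := Finset.card_pos.2 ⟨c, hc⟩
    omega
  -- the minimal one
  set on : Finset (Fin n) → (Fin n → Bool) := fun X l => decide (l ∈ X) with hon
  obtain ⟨X, hX, hXmin⟩ := Finset.exists_min_image
    ((univ : Finset (Finset (Fin n))).filter fun X => f (on X) = true) (fun X => X.card)
    ⟨univ, by
      simp only [Finset.mem_filter, Finset.mem_univ, true_and]
      rw [← htop]
      congr 1
      funext l
      simp [hon]⟩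
  simp only [Finset.mem_filter, Finset.mem_univ, true_and] at hX hXmin
  have hsens : X ⊆ sens f (on X) := by
    intro c hc
    simp only [sens, Finset.mem_filter, Finset.mem_univ, true_and]
    rw [hX]
    intro hcon
    have h1 : Function.update (on X) c (!on X c) = on (X.erase c) := by
      funext l
      by_cases hl : l = c
      · subst hl
        simp [hon, hc]
      · simp [hon, hl]
    rw [h1] at hcon
    have := hXmin _ hcon
    rw [Finset.card_erase_of_mem hc] at this
    have := Finset.card_pos.2 ⟨c, hc⟩
    omega
  have hmeet : n ≤ C.card * X.card := by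
    refine meet f hT C X fun σ hσ => ?_
    by_contra hcon
    push Not at hcon
    have h1 : (on X) ∘ σ ≤ off C := by
      intro l
      by_cases hl : l ∈ C
      · simp [hon, hoff, hcon l hl, hl]
      · simp only [hoff, hl, decide_false, Bool.not_false]
        exact Bool.le_true _
    have h2 := hmono h1
    rw [hσ, hX, hC] at h2
    exact absurd h2 (by decide)
  -- the size of the clause
  have hcard : C.card ≤ m - 1 := by
    by_contra hcon
    have hCpos : 0 < C.card := by omega
    rcases Nat.eq_zero_or_pos m with hm | hm
    · subst hm
      have h1 := hcl (fun j => j.elim0) (fun j => j.elim0)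
      have h2 : (fun l => g l fun j : Fin 0 => (j.elim0 : Fin n → Bool) l) = fun _ => false := by
        funext l
        obtain ⟨a, ha⟩ := h0 l
        rw [← ha]
        congr 1
        funext j
        exact j.elim0
      rw [h2, hbot] at h1
      exact absurd h1 (by decide)
    · have hle : Fintype.card (Fin m) ≤ Fintype.card C := by
        rw [Fintype.card_fin, Fintype.card_coe]
        omega
      obtain ⟨e⟩ := Function.Embedding.nonempty_of_card_le hle
      haveI : Nonempty (Fin m) := ⟨⟨0, hm⟩⟩
      set φ : Fin n → Fin m := Function.invFun fun j => (e j : Fin n) with hφ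
      have hφe : ∀ j, φ (e j : Fin n) = j := by
        intro j
        exact Function.leftInverse_invFun (f := fun j => (e j : Fin n))
          (fun a b hab => e.injective (Subtype.ext hab)) j
      choose a ha1 ha2 using hg
      have h1 := hcl (fun j l => if l ∈ C then a l (φ l) j else true) (by
        intro j
        have h2 : off (C.erase (e j : Fin n)) ≤ fun l => if l ∈ C then a l (φ l) j else true := by
          intro l
          by_cases hl : l ∈ C
          · by_cases hle : l = (e j : Fin n)
            · subst hle
              simp only [hl, if_true, hφe, ha1]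
              exact Bool.le_true _
            · have : off (C.erase (e j : Fin n)) l = false := by
                simp [hoff, hl, hle]
              rw [this]
              exact Bool.false_le _
          · simp only [hl, if_false]
            exact Bool.le_true _
        have h3 := hmono h2
        rw [hCer _ (e j).2] at h3
        exact top_le_iff.1 h3)
      have h4 : (fun l => g l fun j => if l ∈ C then a l (φ l) j else true) ≤ off C := by
        intro l
        by_cases hl : l ∈ C
        · simp only [hl, if_true]
          have : (fun j => a l (φ l) j) = a l (φ l) := rfl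
          rw [this, ha2]
          exact Bool.false_le _
        · have : off C l = true := by simp [hoff, hl]
          rw [this]
          exact Bool.le_true _
      have h5 := hmono h4
      rw [h1, hC] at h5
      exact absurd h5 (by decide)
  refine ⟨on X, hmeet.trans (Nat.mul_le_mul hcard (Finset.card_le_card hsens))⟩

/-- The dual function. -/
def dual (f : (Fin n → Bool) → Bool) : (Fin n → Bool) → Bool := fun x => !f fun l => !x l

theorem sens_dual (f : (Fin n → Bool) → Bool) (x : Fin n → Bool) :
    sens (dual f) x = sens f (fun l => !x l) := by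
  unfold sens dual
  refine Finset.filter_congr fun j _ => ?_
  have : (fun l => !Function.update x j (!x j) l)
      = Function.update (fun l => !x l) j (!!x j) := by
    funext l
    by_cases hl : l = j
    · subst hl
      simp
    · simp [hl]
  rw [this]
  simp

theorem main_dual {m : ℕ} (f : (Fin n → Bool) → Bool) (hmono : Monotone f)
    (hne : ∃ x y, f x ≠ f y) (hT : Transitive f) (g : Fin n → (Fin m → Bool) → Bool)
    (h0 : ∀ l, ∃ a, g l a = true) (hg : ∀ l i, ∃ a : Fin m → Bool, a i = false ∧ g l a = true)
    (hcl : ∀ w : Fin m → Fin n → Bool, (∀ j, f (w j) = false) →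
      f (fun l => g l fun j => w j l) = false) :
    ∃ x, n ≤ (m - 1) * (sens f x).card := by
  obtain ⟨x, hx⟩ := main (m := m) (dual f) (by
      intro x y hxy
      unfold dual
      have h1 : (fun l => !y l) ≤ fun l => !x l := by
        intro l
        have h3 : ∀ p q : Bool, p ≤ q → (!q) ≤ (!p) := by decide
        exact h3 _ _ (hxy l)
      have h3 : ∀ p q : Bool, p ≤ q → (!q) ≤ (!p) := by decide
      exact h3 _ _ (hmono h1))
    (by
      obtain ⟨x, y, hxy⟩ := hne
      refine ⟨fun l => !x l, fun l => !y l, ?_⟩
      unfold dual
      simpa using hxy)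
    (by
      intro i j
      obtain ⟨σ, h1, h2⟩ := hT i j
      refine ⟨σ, h1, fun x => ?_⟩
      unfold dual
      rw [← h2 (fun l => !x l)]
      rfl)
    (fun l a => !g l fun j => !a j)
    (by
      intro l
      obtain ⟨a, ha⟩ := h0 l
      exact ⟨fun j => !a j, by simp [ha]⟩)
    (by
      intro l i
      obtain ⟨a, ha1, ha2⟩ := hg l i
      exact ⟨fun j => !a j, by simp [ha1], by simp [ha2]⟩)
    (by
      intro w hw
      unfold dual at hw ⊢
      have h1 := hcl (fun j l => !w j l) (fun j => by simpa using hw j)
      simpa using h1)
  rw [sens_dual] at hx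
  exact ⟨_, hx⟩

end Pool.Agent.V11160.JU.E
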